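import Pool.Agent.Y823.JT.Blk
import Pool.Agent.Y823.JT.Conv

/-!
# Joints: the exact order of the loss which allows configurations far from generic planes

A generic set of `m` planes gives `n = (m choose 2)` lines with `(m choose 3)` joints.  The earlier result
`FarFromGeneric` of this repository has sets of `n` lines with `(1 - o(1)) (m choose 3)` joints which are
far from all generic sets.  Here a loss of `C m` joints (that is `O(√n)`, out of `~ n ^ (3 / 2)`) is enough
for a distance of `c n`, for every `c < 1`; for lines of plane arrangements a loss of `δ` joints implies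
distance at most `δ m`, so the order `m` of the loss is exact.
-/

set_option autoImplicit false

namespace Pool.Agent.Results.MP_a8d5c3_co.SharpStability

open Module Filter Topology

/-- Euclidean three-space. -/
abbrev E3 := EuclideanSpace ℝ (Fin 3)

/-- Affine subspaces of three-space. -/
abbrev Flat := AffineSubspace ℝ E3

/-- Affine lines. -/
def IsLine (l : Flat) : Prop := l ≠ ⊥ ∧ finrank ℝ l.direction = 1

/-- Affine planes. -/
def IsPlane (P : Flat) : Prop := P ≠ ⊥ ∧ finrank ℝ P.direction = 2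

/-- The point `p` lies on three members of `L` with linearly independent direction vectors. -/
def IsJoint (L : Set Flat) (p : E3) : Prop :=
  ∃ l : Fin 3 → Flat, (∀ i, l i ∈ L ∧ p ∈ l i) ∧
    ∃ v : Fin 3 → E3, (∀ i, v i ∈ (l i).direction) ∧ LinearIndependent ℝ v

/-- The number of joints of `L`. -/
noncomputable def numJoints (L : Set Flat) : ℕ := {p | IsJoint L p}.ncard

/-- The set of intersections of two distinct members of `H`. -/
def linesOf (H : Set Flat) : Set Flat := {l | ∃ P ∈ H, ∃ Q ∈ H, P ≠ Q ∧ l = P ⊓ Q}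

/-- `H` is a finite set of planes, no two of them parallel, no three of them with a common line. -/
def Arrangement (H : Set Flat) : Prop :=
  H.Finite ∧ (∀ P ∈ H, IsPlane P) ∧ (∀ P ∈ H, ∀ Q ∈ H, P ≠ Q → ¬ P.Parallel Q) ∧
    ∀ l, IsLine l → {P ∈ H | l ≤ P}.ncard ≤ 2

/-- `H` is a finite set of planes, no two parallel, no three with a common line, and no point is on more
than `r` of them. -/
def AtMost (r : ℕ) (H : Set Flat) : Prop := Arrangement H ∧ ∀ p : E3, {P ∈ H | p ∈ P}.ncard ≤ r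

/-- `H` is generic: a finite set of planes, no two parallel, no three with a common line, no four with
a common point. -/
def Generic (H : Set Flat) : Prop := AtMost 3 H

lemma arrangement_data {H : Set Flat} (h : Arrangement H) :
    ∃ H' : Finset Flat, (H' : Set Flat) = H ∧ Pool.Agent.Y823.JT.Arr H' := by
  obtain ⟨hfin, hpl, hpar, hl⟩ := h
  refine ⟨hfin.toFinset, hfin.coe_toFinset, ?_, ?_, ?_⟩
  · intro P hP
    exact hpl P (hfin.mem_toFinset.1 hP)
  · intro P hP Q hQ hne hdir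
    exact hpar P (hfin.mem_toFinset.1 hP) Q (hfin.mem_toFinset.1 hQ) hne
      (AffineSubspace.parallel_iff_direction_eq_and_eq_bot_iff_eq_bot.2
        ⟨hdir, iff_of_false (hpl P (hfin.mem_toFinset.1 hP)).1
          (hpl Q (hfin.mem_toFinset.1 hQ)).1⟩)
  · rw [hfin.coe_toFinset]
    exact hl

lemma arrangement_of_data {H : Finset Flat} (h : Pool.Agent.Y823.JT.Arr H) :
    Arrangement (H : Set Flat) := by
  refine ⟨H.finite_toSet, h.pl, ?_, h.two⟩
  intro P hP Q hQ hne hpar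
  exact h.par P hP Q hQ hne (AffineSubspace.parallel_iff_direction_eq_and_eq_bot_iff_eq_bot.1 hpar).1

lemma arr_H3 {K B : ℕ} (hK : 3 ≤ K) : Pool.Agent.Y823.JT.Arr (Pool.Agent.Y823.JT.H3 K B) := by
  have hsub := Pool.Agent.Y823.JT.H3_sub (B := B) hK
  refine ⟨fun P hP => Pool.Agent.Y823.JT.HH_plane (hsub hP),
    fun P hP Q hQ hne => Pool.Agent.Y823.JT.HH_dir (hsub hP) (hsub hQ) hne, fun l hl => ?_⟩
  refine (Set.ncard_le_ncard ?_ ?_).trans (Pool.Agent.W42.Joints.HH_two K B l hl)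
  · rintro P ⟨hP, hlP⟩
    exact ⟨hsub hP, hlP⟩
  · exact (Finset.finite_toSet _).subset fun x hx => hx.1

/-- The block configurations. -/
theorem blocks (K B : ℕ) (hK : 3 ≤ K) :
    ∃ L : Set Flat, L.Finite ∧ (∀ l ∈ L, IsLine l) ∧ L.ncard = (K * B).choose 2 ∧
      numJoints L ≤ (K * B).choose 3 ∧ (K * B).choose 3 ≤ numJoints L + B * K.choose 3 ∧
      (∀ r H, AtMost r H → (L.ncard : ℝ) - (((r * B).choose 2 : ℕ) : ℝ) - (4 * K + 1) ^ 2 / 8 ≤
        ((symmDiff L (linesOf H)).ncard : ℝ)) ∧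
      ∃ H, Generic H ∧ (symmDiff L (linesOf H)).ncard + (3 * B).choose 2 = L.ncard := by
  classical
  refine ⟨Pool.Agent.W42.Joints.LL K B, Pool.Agent.W42.Joints.LL_finite _ _,
    fun l hl => Pool.Agent.W42.Joints.LL_line hl, Pool.Agent.W42.Joints.LL_ncard _ _,
    Pool.Agent.W42.Joints.numJoints_le _ _, Pool.Agent.W42.Joints.le_numJoints _ _, ?_, ?_⟩
  · rintro r H ⟨hH, hp⟩
    obtain ⟨H', rfl, h⟩ := arrangement_data hH
    exact Pool.Agent.Y823.JT.dist_ge' (r := r) (by omega) h.pl h.par h.two hp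
  · have harr := arr_H3 (B := B) hK
    refine ⟨(Pool.Agent.Y823.JT.H3 K B : Set Flat),
      ⟨arrangement_of_data harr, Pool.Agent.Y823.JT.H3_pt hK⟩, ?_⟩
    have hsub : linesOf (Pool.Agent.Y823.JT.H3 K B : Set Flat) ⊆ Pool.Agent.W42.Joints.LL K B := by
      rintro l ⟨P, hP, Q, hQ, hne, rfl⟩
      exact ⟨P, Pool.Agent.Y823.JT.H3_sub hK hP, Q, Pool.Agent.Y823.JT.H3_sub hK hQ, hne, rfl⟩
    have hcard : (linesOf (Pool.Agent.Y823.JT.H3 K B : Set Flat)).ncard = (3 * B).choose 2 := by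
      have h1 := Pool.Agent.W42.Joints.linesOf_ncard (Pool.Agent.Y823.JT.H3 K B)
        (fun P hP Q hQ hne => Pool.Agent.W42.Joints.isLine_inf_of_plane (harr.pl P hP) (harr.pl Q hQ)
          (harr.par P hP Q hQ hne)) harr.two
      rw [Pool.Agent.Y823.JT.card_H3 hK] at h1
      exact h1
    have hfin := Pool.Agent.W42.Joints.LL_finite K B
    have hsd : symmDiff (Pool.Agent.W42.Joints.LL K B)
        (linesOf (Pool.Agent.Y823.JT.H3 K B : Set Flat)) =
        Pool.Agent.W42.Joints.LL K B \ linesOf (Pool.Agent.Y823.JT.H3 K B : Set Flat) := by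
      rw [Set.symmDiff_def, Set.sdiff_eq_empty.2 hsub, Set.union_empty]
    rw [hsd, ← hcard]
    exact Set.ncard_sdiff_add_ncard_of_subset hsub hfin

/-- (1) For `K ≥ 3` and every `B` there is a set `L` of `n = (m choose 2)` lines, `m = K B`, with
`(m choose 3) - B (K choose 3) ≤ J(L) ≤ (m choose 3)` joints, whose distance to `linesOf H` is at least
`n - (r B choose 2) - (4 K + 1) ^ 2 / 8` for all `r` and all `H` with `AtMost r H`, and equal to
`n - (3 B choose 2)` for some generic `H`.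
(2) For every `c < 1` and `r` there are `K` and `C` such that for all large `B`, with `m = K B`, there is a
set `L` of `n = (m choose 2)` lines with at least `(m choose 3) - C m` joints and
`|L ∆ linesOf H| ≥ c n` for all `H` with `AtMost r H`; for `r = 3` these are the generic sets.
(3) For every arrangement `H₀` of planes there is a generic `H ⊆ H₀` with
`|linesOf H₀ ∆ linesOf H| ≤ ((m choose 3) - J(linesOf H₀)) m`, `m = |H₀|`; and
`J(linesOf H₀) ≤ (m choose 3)`. -/
theorem result :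
    (∀ K B : ℕ, 3 ≤ K →
      ∃ L : Set Flat, L.Finite ∧ (∀ l ∈ L, IsLine l) ∧ L.ncard = (K * B).choose 2 ∧
        numJoints L ≤ (K * B).choose 3 ∧ (K * B).choose 3 ≤ numJoints L + B * K.choose 3 ∧
        (∀ r H, AtMost r H → (L.ncard : ℝ) - (((r * B).choose 2 : ℕ) : ℝ) - (4 * K + 1) ^ 2 / 8 ≤
          ((symmDiff L (linesOf H)).ncard : ℝ)) ∧
        ∃ H, Generic H ∧ (symmDiff L (linesOf H)).ncard + (3 * B).choose 2 = L.ncard) ∧
    (∀ (c : ℝ) (r : ℕ), c < 1 → ∃ (K : ℕ) (C : ℝ), 1 ≤ K ∧ ∀ᶠ B : ℕ in atTop,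
      ∃ L : Set Flat, L.Finite ∧ (∀ l ∈ L, IsLine l) ∧ L.ncard = (K * B).choose 2 ∧
        (((K * B).choose 3 : ℕ) : ℝ) - C * ((K * B : ℕ) : ℝ) ≤ numJoints L ∧
        ∀ H, AtMost r H → c * (L.ncard : ℝ) ≤ ((symmDiff L (linesOf H)).ncard : ℝ)) ∧
    (∀ H₀ : Set Flat, Arrangement H₀ → numJoints (linesOf H₀) ≤ H₀.ncard.choose 3 ∧
      ∃ H ⊆ H₀, Generic H ∧ (symmDiff (linesOf H₀) (linesOf H)).ncard ≤
        (H₀.ncard.choose 3 - numJoints (linesOf H₀)) * H₀.ncard) := by
  refine ⟨fun K B hK => blocks K B hK, fun c r hc => ?_, fun H₀ hH₀ => ?_⟩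
  · obtain ⟨K0, hK0⟩ := exists_nat_gt (4 * (r : ℝ) ^ 2 / (1 - c))
    obtain ⟨K, hKdef⟩ : ∃ K, K = max K0 3 := ⟨_, rfl⟩
    have hK3 : 3 ≤ K := by rw [hKdef]; exact le_max_right _ _
    have hKK : (K0 : ℝ) ≤ K := by
      rw [hKdef]; exact_mod_cast le_max_left _ _
    have hc0 : 0 < 1 - c := by linarith
    have hK3' : (3 : ℝ) ≤ K := by exact_mod_cast hK3
    have hK36 : 4 * (r : ℝ) ^ 2 < (1 - c) * K := by
      have h1 : 4 * (r : ℝ) ^ 2 / (1 - c) < K := lt_of_lt_of_le hK0 hKK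
      rw [div_lt_iff₀ hc0] at h1
      linarith
    refine ⟨K, (K : ℝ) ^ 2, by omega, ?_⟩
    have hlim : ∀ᶠ B : ℕ in atTop, (4 * (K : ℝ) + 1) ^ 2 < (1 - c) * B := by
      obtain ⟨N, hN⟩ := exists_nat_gt ((4 * (K : ℝ) + 1) ^ 2 / (1 - c))
      filter_upwards [eventually_ge_atTop N] with B hB
      have h1 : (4 * (K : ℝ) + 1) ^ 2 / (1 - c) < B := lt_of_lt_of_le hN (by exact_mod_cast hB)
      rw [div_lt_iff₀ hc0] at h1
      linarith
    filter_upwards [hlim, eventually_ge_atTop 1] with B hB hB1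
    obtain ⟨L, h1, h2, h3, h4, h5, h6, -⟩ := blocks K B hK3
    have hB1' : (1 : ℝ) ≤ B := by exact_mod_cast hB1
    refine ⟨L, h1, h2, h3, ?_, fun H hH => ?_⟩
    · have h7 : (((K * B).choose 3 : ℕ) : ℝ) ≤ numJoints L + B * ((K.choose 3 : ℕ) : ℝ) := by
        exact_mod_cast h5
      have h8 : ((K.choose 3 : ℕ) : ℝ) ≤ (K : ℝ) ^ 3 := by
        exact_mod_cast Nat.choose_le_pow K 3
      have h9 : (B : ℝ) * ((K.choose 3 : ℕ) : ℝ) ≤ (K : ℝ) ^ 2 * ((K * B : ℕ) : ℝ) := by
        calc (B : ℝ) * ((K.choose 3 : ℕ) : ℝ) ≤ B * (K : ℝ) ^ 3 := by gcongr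
          _ = (K : ℝ) ^ 2 * ((K * B : ℕ) : ℝ) := by push_cast; ring
      linarith
    · refine le_trans ?_ (h6 r H hH)
      rw [h3, Nat.cast_choose_two, Nat.cast_choose_two]
      push_cast
      -- with `n = K B (K B - 1) / 2 ≥ K ^ 2 B ^ 2 / 4`
      have hKB : (3 : ℝ) ≤ K * B := by nlinarith
      have hn : ((K : ℝ) * B) ^ 2 / 4 ≤ (K : ℝ) * B * (K * B - 1) / 2 := by nlinarith
      have e1 : (r : ℝ) ^ 2 * (B : ℝ) ^ 2 / 2 ≤ (1 - c) / 2 * (((K : ℝ) * B) ^ 2 / 4) := by
        have : (4 * (r : ℝ) ^ 2) * B ^ 2 ≤ ((1 - c) * K) * K * B ^ 2 := by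
          have h7 : 4 * (r : ℝ) ^ 2 ≤ ((1 - c) * K) * K := by
            have h8 : 0 ≤ 4 * (r : ℝ) ^ 2 := by positivity
            nlinarith
          exact mul_le_mul_of_nonneg_right h7 (by positivity)
        nlinarith
      have e2 : (4 * (K : ℝ) + 1) ^ 2 / 8 ≤ (1 - c) / 2 * (((K : ℝ) * B) ^ 2 / 4) := by
        have h7 : (1 - c) * (B : ℝ) ≤ (1 - c) * ((K : ℝ) * B) ^ 2 := by
          apply mul_le_mul_of_nonneg_left _ hc0.le
          have : (B : ℝ) ≤ (K : ℝ) * B := by nlinarith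
          nlinarith
        nlinarith
      have e3 : (r : ℝ) * B * (r * B - 1) / 2 ≤ (r : ℝ) ^ 2 * (B : ℝ) ^ 2 / 2 := by
        have : 0 ≤ (r : ℝ) * B := by positivity
        nlinarith
      have e4 : (1 - c) / 2 * (((K : ℝ) * B) ^ 2 / 4) ≤
          (1 - c) / 2 * ((K : ℝ) * B * (K * B - 1) / 2) :=
        mul_le_mul_of_nonneg_left hn (by linarith)
      linarith
  · obtain ⟨G, rfl, hG⟩ := arrangement_data hH₀
    obtain ⟨G', hsub, hpt, hle⟩ := Pool.Agent.Y823.JT.exists_generic hG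
    have harr' : Pool.Agent.Y823.JT.Arr G' := by
      refine ⟨fun P hP => hG.pl P (hsub hP), fun P hP Q hQ => hG.par P (hsub hP) Q (hsub hQ),
        fun l hl => ?_⟩
      refine (Set.ncard_le_ncard ?_ ?_).trans (hG.two l hl)
      · rintro P ⟨hP, hlP⟩
        exact ⟨hsub hP, hlP⟩
      · exact (Finset.finite_toSet _).subset fun x hx => hx.1
    have hle' : G.card - G'.card + numJoints (linesOf (G : Set Flat)) ≤ G.card.choose 3 := hle
    rw [Set.ncard_coe_finset]
    refine ⟨by omega, (G' : Set Flat), Finset.coe_subset.2 hsub, ⟨arrangement_of_data harr', hpt⟩, ?_⟩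
    refine (Pool.Agent.Y823.JT.symmDiff_le hsub).trans ?_
    exact Nat.mul_le_mul_right _ (by omega)

end Pool.Agent.Results.MP_a8d5c3_co.SharpStability
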